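import Pool.Agent.helper64.PC.SpecX

/-!
# pc:GP1 (MP_069684_lc)
-/

set_option autoImplicit false

namespace Pool.Agent.PC

open Finset Pool.Agent.PB

theorem GP1 : GP1_stmt := by
  intro P A Om _ _ _ _ S E hE
  obtain ⟨R, hR⟩ : ∃ R, R = 4 * S.m * S.k := ⟨_, rfl⟩
  have hm := S.m1
  have hk := S.k2
  have hR0 : 0 < R := by rw [hR]; positivity
  have hkap : 4 * R ≤ S.kap := by
    refine le_trans (le_of_eq ?_) S.kp
    rw [hR]; ring
  obtain ⟨U, hU, hmax⟩ := Finset.exists_max_image (univ.filter fun U : Finset P => U.card ≤ 2 * S.t)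
    (fun U => (E.filter fun a => U ⊆ S.g a).card * R ^ U.card) ⟨∅, by simp⟩
  have hUc : U.card ≤ 2 * S.t := (mem_filter.1 hU).2
  have h0 : E.card ≤ (E.filter fun a => U ⊆ S.g a).card * R ^ U.card := by
    have h := hmax ∅ (by simp)
    have e : (E.filter fun a => (∅ : Finset P) ⊆ S.g a) = E := by
      apply filter_true_of_mem
      intro a _
      exact empty_subset _
    simpa [e] using h
  have hEpos : 0 < E.card := card_pos.2 hE
  have hne : 0 < (E.filter fun a => U ⊆ S.g a).card := by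
    rcases Nat.eq_zero_or_pos (E.filter fun a => U ⊆ S.g a).card with h | h
    · rw [h, Nat.zero_mul] at h0
      exact absurd hEpos (not_lt.2 h0)
    · exact h
  obtain ⟨a, ha⟩ := card_pos.1 hne
  obtain ⟨haE, haU⟩ := mem_filter.1 ha
  refine ⟨U, hUc, ⟨a, haE, haU⟩, ?_, ?_⟩
  · intro ht
    have hp := S.pos U (S.gPF a U haU) hUc
    have h1 : (E.filter fun a => U ⊆ S.g a).card ≤ ct (fun a => U ⊆ S.g a) := by
      rw [ct_eq]
      exact card_le_card (filter_subset_filter _ (subset_univ _))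
    calc E.card * 4 ^ S.t ≤ ((E.filter fun a => U ⊆ S.g a).card * R ^ U.card) * 4 ^ U.card :=
          Nat.mul_le_mul h0 (Nat.pow_le_pow_right (by norm_num) ht)
      _ = (E.filter fun a => U ⊆ S.g a).card * (4 * R) ^ U.card := by rw [mul_pow]; ring
      _ ≤ ct (fun a => U ⊆ S.g a) * S.kap ^ U.card := Nat.mul_le_mul h1 (Nat.pow_le_pow_left hkap _)
      _ ≤ Fintype.card A := hp
  · intro Y hY hc
    rw [← hR]
    have hcard : (U ∪ Y).card = U.card + Y.card := card_union_of_disjoint hY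
    have h := hmax (U ∪ Y) (by rw [mem_filter]; exact ⟨mem_univ _, by rw [hcard]; exact hc⟩)
    rw [hcard, pow_add] at h
    have hpos : 0 < R ^ U.card := pow_pos hR0 _
    apply Nat.le_of_mul_le_mul_left _ hpos
    calc R ^ U.card * ((E.filter fun a => U ∪ Y ⊆ S.g a).card * R ^ Y.card)
        = (E.filter fun a => U ∪ Y ⊆ S.g a).card * (R ^ U.card * R ^ Y.card) := by ring
      _ ≤ (E.filter fun a => U ⊆ S.g a).card * R ^ U.card := h
      _ = R ^ U.card * (E.filter fun a => U ⊆ S.g a).card := by ring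

end Pool.Agent.PC
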